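import Pool.Agent.helper68.SF.SpecW

/-!
Project SF (MP_d52931_gt), module RO: symmetries of the sum.
-/

set_option autoImplicit false

namespace SF

open Pool.Agent.helper72.Sq
open scoped ContDiff

theorem RO_NN (g : ℝ → ℝ) (A c : ℝ) : NN g A (-c) = -NN g A c := by
  unfold NN
  have h : ∀ F : ℝ → ℝ, (∀ p, F (-p) = F p) →
      ∫ p in (0 : ℝ)..(-c), F p = -∫ p in (0 : ℝ)..c, F p := by
    intro F hF
    have h1 := intervalIntegral.integral_comp_neg (a := 0) (b := -c) F
    simp only [hF, neg_neg, neg_zero] at h1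
    rw [h1, intervalIntegral.integral_symm]
  rw [← mul_neg, ← h]
  · simp only [neg_sq]
  · intro p
    simp only [neg_sq]

theorem RO_k1 (g : ℝ → ℝ) (s x y : ℝ) : k1 g s (-x) y = -k1 g s x y := by
  unfold k1
  rw [neg_sq, neg_div, RO_NN]
  ring

theorem RO_b1 (g : ℝ → ℝ) (s x y : ℝ) : b1 g s (-x) y = b1 g s x y := by
  unfold b1
  rw [neg_sq]

theorem RO_Bk (g : ℝ → ℝ) (s x y x0 k : ℝ) :
    Bk g s (-x) y (-x0) (-1 - k) = -Bk g s x y x0 k := by
  have key : ∀ r r' : ℝ, r' = 1 - r →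
      k1 g s (-x + (-1 - k) + r') y + 1 / 2 * Real.sign (-x0 + (-1 - k) + r') *
        b1 g s (-x + (-1 - k) + r') y =
      -(k1 g s (x + k + r) y + 1 / 2 * Real.sign (x0 + k + r) * b1 g s (x + k + r) y) := by
    intro r r' h
    have e1 : -x + (-1 - k) + r' = -(x + k + r) := by rw [h]; ring
    have e2 : -x0 + (-1 - k) + r' = -(x0 + k + r) := by rw [h]; ring
    rw [e1, e2, RO_k1, RO_b1, Real.sign_neg]
    ring
  unfold Bk c5
  beta_reduce
  rw [key (1 / 5) (4 / 5) (by norm_num), key (2 / 5) (3 / 5) (by norm_num),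
    key (3 / 5) (2 / 5) (by norm_num), key (4 / 5) (1 / 5) (by norm_num)]
  ring

theorem RO : RO_stmt := by
  intro g _ s x y x0 _
  constructor
  · unfold RR
    rw [← tsum_neg, ← (Equiv.subLeft (-1 : ℤ)).tsum_eq]
    refine tsum_congr fun k => ?_
    have h := RO_Bk g s x y x0 k
    rw [← h]
    simp
  · intro n
    unfold RR
    rw [← (Equiv.addRight n).tsum_eq (fun k : ℤ => Bk g s x y x0 k)]
    refine tsum_congr fun k => ?_
    have e : ∀ a r : ℝ, a + n + k + r = a + ((Equiv.addRight n) k : ℤ) + r := by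
      intro a r
      simp only [Equiv.coe_addRight, Int.cast_add]
      ring
    unfold Bk
    simp only [e]

end SF
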