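import Pool.Agent.helper1.SF.SpecA

/-!
Project SF (MP_d52931_gt), module TRI: all nodes of the tree.
-/

set_option autoImplicit false

namespace SF

open Pool.Agent.helper72.Sq MeasureTheory Set
open scoped ContDiff

theorem TRI_kapTw (P : Tri) : kap (Tw P) = kap P := by
  simp only [kap, Tw]
  ring

theorem TRI_ind (Λ : ℝ) (h : ∀ (n : ℕ) (Q : Tri),
    kap Q ≤ 8 * Real.exp (21 * Λ / 10) → GQ Λ n Q → GQ Λ (n + 1) (Lm Q) ∧ GQ Λ (n + 1) (Rm Q)) :
    ∀ (w : List Bool) (n : ℕ) (Q : Tri), kap Q ≤ 8 * Real.exp (21 * Λ / 10) → GQ Λ n Q →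
      GQ Λ (n + w.length) (desc w Q) := by
  intro w
  induction w with
  | nil => exact fun n Q _ hQ => hQ
  | cons c w ih =>
    intro n Q hk hQ
    have e : n + (c :: w).length = n + 1 + w.length := by
      rw [List.length_cons]
      omega
    rw [e]
    cases c with
    | true =>
      refine ih (n + 1) (Lm Q) ?_ (h n Q hk hQ).1
      rw [kap_Lm]
      exact hk
    | false =>
      refine ih (n + 1) (Rm Q) ?_ (h n Q hk hQ).2
      rw [kap_Rm]
      exact hk

theorem TRI (hS : TRS_stmt) (hB : TRB_stmt) : TRI_stmt := by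
  obtain ⟨a, ha, hS⟩ := hS
  obtain ⟨b, hb, hB⟩ := hB
  refine ⟨max a b, le_trans ha (le_max_left _ _), fun Λ hΛ => ?_⟩
  obtain ⟨hA, hk, h1, h2, h3, hL, hR, hT⟩ := hB Λ (le_trans (le_max_right _ _) hΛ)
  have hI := TRI_ind Λ (hS Λ (le_trans (le_max_left _ _) hΛ))
  refine ⟨hA, h1, h2, h3, ?_, ?_⟩
  · intro w hw
    cases w with
    | nil => exact absurd rfl hw
    | cons c w =>
      have e : (c :: w).length = 1 + w.length := by
        rw [List.length_cons]
        omega
      rw [e]
      cases c with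
      | true =>
        refine hI w 1 (Lm (PP Λ)) ?_ hL
        rw [kap_Lm]
        exact hk
      | false =>
        refine hI w 1 (Rm (PP Λ)) ?_ hR
        rw [kap_Rm]
        exact hk
  · intro w
    have := hI w 0 (Tw (PP Λ)) (by rw [TRI_kapTw]; exact hk) hT
    rwa [zero_add] at this

end SF
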